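import Pool.Agent.W544.FF.Defs2

/-!
Classes symmetric in the factors of each block (helper file for project FF).
-/

open Matrix Finset Module

namespace Pool.Agent.W346.FF

open Pool.Agent.W544.PG Pool.Agent.W544.FF

noncomputable section

theorem few_perm {n r s m k : ℕ} {c : Fin n → Fin r} {f : Fin m → Fin k} {D : Finset (Fin r)}
    {π : Equiv.Perm (Fin m)} (hπ : ∀ j, f (π j) = f j) (J : Fin m → Fin s ⊕ Fin n) :
    Few c f D (fun j => J (π j)) ↔ Few c f D J := by
  unfold Few
  have h : ∀ i, (univ.filter fun x : Fin k => ∃ j b, f j = x ∧ J (π j) = Sum.inr b ∧ c b = i) =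
      (univ.filter fun x : Fin k => ∃ j b, f j = x ∧ J j = Sum.inr b ∧ c b = i) := by
    intro i
    refine Finset.filter_congr fun x _ => ?_
    constructor
    · rintro ⟨j, b, h1, h2, h3⟩
      exact ⟨π j, b, (hπ j).trans h1, h2, h3⟩
    · rintro ⟨j, b, h1, h2, h3⟩
      refine ⟨π.symm j, b, ?_, ?_, h3⟩
      · rw [← hπ (π.symm j), Equiv.apply_symm_apply, h1]
      · rw [Equiv.apply_symm_apply, h2]
  simp only [h]

theorem few_of {n r s m k : ℕ} {c : Fin n → Fin r} {d : Fin s → Fin r} {a : Fin m → Fin r}
    {f : Fin m → Fin k} {D : Finset (Fin r)} {J J' : Fin m → Fin s ⊕ Fin n}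
    (h1 : ∀ j, Sum.elim d c (J j) = a j) (h1' : ∀ j, Sum.elim d c (J' j) = a j)
    (h2 : ∀ j, (∃ b, J j = Sum.inr b) ↔ ∃ b, J' j = Sum.inr b) (hF : Few c f D J) :
    Few c f D J' := by
  intro i hi
  refine lt_of_le_of_lt (card_le_card ?_) (hF i hi)
  intro x hx
  rw [mem_filter] at hx ⊢
  obtain ⟨-, j, b, e1, e2, e3⟩ := hx
  obtain ⟨b', hb'⟩ := (h2 j).2 ⟨b, e2⟩
  refine ⟨mem_univ _, j, b', e1, hb', ?_⟩
  have k1 := h1 j
  have k2 := h1' j
  rw [hb', Sum.elim_inr] at k1
  rw [e2, Sum.elim_inr] at k2
  rw [k1, ← k2, e3]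

open Classical in
/-- indicator function of the tensors with few transcendental blocks -/
def chi {n r s m k : ℕ} (K : Type) [Field K] (c : Fin n → Fin r) (f : Fin m → Fin k)
    (D : Finset (Fin r)) (J : Fin m → Fin s ⊕ Fin n) : K :=
  if Few c f D J then 1 else 0

/-- the permutations of the factors of each block -/
def GG {m k : ℕ} (f : Fin m → Fin k) : Finset (Equiv.Perm (Fin m)) :=
  univ.filter fun π => ∀ j, f (π j) = f j

theorem mem_GG {m k : ℕ} {f : Fin m → Fin k} {π : Equiv.Perm (Fin m)} :
    π ∈ GG f ↔ ∀ j, f (π j) = f j := by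
  rw [GG, mem_filter]
  exact ⟨fun h => h.2, fun h => ⟨mem_univ _, h⟩⟩

/-- symmetrization -/
def Sy {n r s m k : ℕ} {K : Type} [Field K] (c : Fin n → Fin r) (f : Fin m → Fin k)
    (D : Finset (Fin r)) : ((Fin m → Fin s ⊕ Fin n) → K) →ₗ[K] ((Fin m → Fin s ⊕ Fin n) → K) where
  toFun u J := ∑ π ∈ GG f, chi K c f D J * u (fun j => J (π j))
  map_add' u w := by
    funext J
    simp only [Pi.add_apply, mul_add, sum_add_distrib]
  map_smul' z u := by
    funext J
    simp only [Pi.smul_apply, smul_eq_mul, RingHom.id_apply, mul_sum]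
    refine sum_congr rfl fun π _ => ?_
    ring

theorem sum_swap {s n m k : ℕ} {K : Type} [Field K] [CharZero K] {f : Fin m → Fin k}
    {τ : Equiv.Perm (Fin m)} (hτ : ∀ j, f (τ j) = f j) (x : (Fin m → Fin s ⊕ Fin n) → K)
    (hx : ∀ J, x (fun j => J (τ j)) = -x J) (J : Fin m → Fin s ⊕ Fin n) :
    ∑ π ∈ GG f, x (fun j => J (π j)) = 0 := by
  have h1 : ∑ π ∈ GG f, x (fun j => J ((π * τ) j)) = ∑ π ∈ GG f, x (fun j => J (π j)) := by
    refine Finset.sum_equiv (Equiv.mulRight τ) (fun π => ?_) (fun π _ => rfl)
    rw [mem_GG, mem_GG]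
    constructor
    · intro h j
      show f (π (τ j)) = f j
      rw [h, hτ]
    · intro h j
      have h2 : f (π (τ (τ.symm j))) = f (τ.symm j) := h (τ.symm j)
      have h3 := hτ (τ.symm j)
      rw [Equiv.apply_symm_apply] at h2 h3
      rw [h2, h3]
  have h2 : ∑ π ∈ GG f, x (fun j => J ((π * τ) j)) = -∑ π ∈ GG f, x (fun j => J (π j)) := by
    rw [← sum_neg_distrib]
    refine sum_congr rfl fun π _ => ?_
    exact hx (fun j => J (π j))
  rw [h1] at h2
  exact self_eq_neg.1 h2

theorem swap_inv {m k : ℕ} {f : Fin m → Fin k} {p q : Fin m} (h : f p = f q) (j : Fin m) :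
    f (Equiv.swap p q j) = f j := by
  rw [Equiv.swap_apply_def]
  split_ifs with h1 h2
  · rw [h1, h]
  · rw [h2, h]
  · rfl

theorem gsy (hgpm : S_gpm) (hgsp : S_gsp) (hgan : S_gan) : S_gsy := by
  intro K _ _ n r s m k c d a f Q D hBD hQ hfa t ht hinv hsupp
  have key : ∀ u ∈ algE Q c d a univ, Sy c f D u ∈ algE Q c d a D := by
    intro u hu
    unfold algE at hu
    induction hu using Submodule.span_induction with
    | zero =>
      rw [map_zero]
      exact Submodule.zero_mem _
    | add u w _ _ hu hw =>
      rw [map_add]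
      exact Submodule.add_mem _ hu hw
    | smul z u _ hu =>
      rw [map_smul]
      exact Submodule.smul_mem _ z hu
    | mem x hx =>
      obtain ⟨σ, ν, S, g, hok, -, rfl⟩ := hx
      have hsp := hgsp K n r s m c d a Q σ ν S g hBD hok
      by_cases hS : S ⊆ D
      · -- the indicator function is constant on the support
        have hmem : gnr Q c d a σ ν S g ∈ algE Q c d a D :=
          Submodule.subset_span ⟨σ, ν, S, g, hok, hS, rfl⟩
        have hχ : (fun J => chi K c f D J * gnr Q c d a σ ν S g J) ∈ algE Q c d a D := by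
          by_cases hex : ∃ J, gnr Q c d a σ ν S g J ≠ 0 ∧ Few c f D J
          · obtain ⟨J₀, h1, h2⟩ := hex
            have : (fun J => chi K c f D J * gnr Q c d a σ ν S g J) = gnr Q c d a σ ν S g := by
              funext J
              by_cases hJ : gnr Q c d a σ ν S g J = 0
              · rw [hJ, mul_zero]
              · have h3 : Few c f D J := by
                  refine few_of (hsp J₀ h1).1 (hsp J hJ).1 (fun j => ?_) h2
                  rw [(hsp J₀ h1).2 j, (hsp J hJ).2 j]
                rw [chi, if_pos h3, one_mul]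
            rw [this]
            exact hmem
          · have : (fun J => chi K c f D J * gnr Q c d a σ ν S g J) = 0 := by
              funext J
              by_cases hJ : gnr Q c d a σ ν S g J = 0
              · rw [hJ, mul_zero]
                rfl
              · have h3 : ¬ Few c f D J := fun h => hex ⟨J, hJ, h⟩
                rw [chi, if_neg h3, zero_mul]
                rfl
            rw [this]
            exact Submodule.zero_mem _
        have hsum : Sy c f D (gnr Q c d a σ ν S g) = ∑ π ∈ GG f, fun J =>
            (fun J => chi K c f D J * gnr Q c d a σ ν S g J) (fun j => J (π j)) := by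
          funext J
          rw [Finset.sum_apply]
          refine sum_congr rfl fun π hπ => ?_
          have : chi K c f D (fun j => J (π j)) = chi K c f D J := by
            have h4 := few_perm (s := s) (n := n) (c := c) (D := D) (mem_GG.1 hπ) J
            unfold chi
            by_cases h5 : Few c f D J
            · rw [if_pos h5, if_pos (h4.2 h5)]
            · rw [if_neg h5, if_neg (fun h => h5 (h4.1 h))]
          show chi K c f D J * gnr Q c d a σ ν S g (fun j => J (π j)) =
            chi K c f D (fun j => J (π j)) * gnr Q c d a σ ν S g (fun j => J (π j))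
          rw [this]
        rw [hsum]
        refine Submodule.sum_mem _ fun π hπ => ?_
        exact hgpm K n r s m c d a Q D π hBD hQ (fun j => hfa _ _ (mem_GG.1 hπ j)) _ hχ
      · -- the symmetrization vanishes
        have hz : Sy c f D (gnr Q c d a σ ν S g) = 0 := by
          obtain ⟨i, hiS, hiD⟩ := Finset.not_subset.1 hS
          by_cases hinj : ∃ b b' : {b : Fin n // c b ∈ S}, b ≠ b' ∧ c b.1 = c b'.1 ∧ c b.1 = i ∧
              f (g b) = f (g b')
          · obtain ⟨b, b', hbb, hcc, hci, hff⟩ := hinj
            funext J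
            show ∑ π ∈ GG f, chi K c f D J * gnr Q c d a σ ν S g (fun j => J (π j)) = 0
            rw [← mul_sum, sum_swap (swap_inv hff) (gnr Q c d a σ ν S g)
              (fun J => hgan K n r s m c d a Q σ ν S g hok b b' hbb hcc J) J, mul_zero]
          · funext J
            show ∑ π ∈ GG f, chi K c f D J * gnr Q c d a σ ν S g (fun j => J (π j)) = 0
            refine sum_eq_zero fun π hπ => ?_
            by_cases hJ : gnr Q c d a σ ν S g (fun j => J (π j)) = 0
            · rw [hJ, mul_zero]
            · have h3 : ¬ Few c f D J := by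
                rw [← few_perm (mem_GG.1 hπ) J]
                intro h4
                have h5 := h4 i hiD
                refine absurd h5 (not_lt.2 ?_)
                have hS' : ∀ b : Fin n, c b = i → c b ∈ S := fun b hb => hb ▸ hiS
                rw [← Finset.card_attach]
                refine Finset.card_le_card_of_injOn
                  (fun b : {x // x ∈ univ.filter fun b => c b = i} =>
                    f (g ⟨b.1, hS' b.1 (mem_filter.1 b.2).2⟩)) ?_ ?_
                · intro b _
                  have hbi : c b.1 = i := (mem_filter.1 b.2).2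
                  obtain ⟨b', hb'⟩ := ((hsp _ hJ).2 (g ⟨b.1, hS' b.1 hbi⟩)).2 (Or.inr ⟨_, rfl⟩)
                  have h6 := (hsp _ hJ).1 (g ⟨b.1, hS' b.1 hbi⟩)
                  rw [hb', Sum.elim_inr, hok.2.2.2.2.2] at h6
                  rw [Finset.mem_coe, mem_filter]
                  exact ⟨mem_univ _, _, b', rfl, hb', h6.trans hbi⟩
                · intro b _ b' _ hbb
                  by_contra hne
                  have hbi : c b.1 = i := (mem_filter.1 b.2).2
                  have hbi' : c b'.1 = i := (mem_filter.1 b'.2).2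
                  refine hinj ⟨⟨b.1, hS' b.1 hbi⟩, ⟨b'.1, hS' b'.1 hbi'⟩, ?_, hbi.trans hbi'.symm,
                    hbi, hbb⟩
                  intro h7
                  exact hne (Subtype.ext (congrArg (fun z => z.1) h7))
              rw [chi, if_neg h3, zero_mul]
        rw [hz]
        exact Submodule.zero_mem _
  have h1 : Sy c f D t = ((GG f).card : K) • t := by
    funext J
    show ∑ π ∈ GG f, chi K c f D J * t (fun j => J (π j)) = ((GG f).card : K) * t J
    have h2 : ∀ π ∈ GG f, chi K c f D J * t (fun j => J (π j)) = t J := by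
      intro π hπ
      rw [hinv π (mem_GG.1 hπ) J]
      by_cases hJ : t J = 0
      · rw [hJ, mul_zero]
      · rw [chi, if_pos (hsupp J hJ), one_mul]
    rw [sum_congr rfl h2, sum_const, nsmul_eq_mul]
  have h3 : ((GG f).card : K) ≠ 0 := by
    rw [Nat.cast_ne_zero]
    exact Finset.card_ne_zero_of_mem (mem_GG.2 fun j => rfl : (1 : Equiv.Perm (Fin m)) ∈ GG f)
  have h4 := Submodule.smul_mem _ ((GG f).card : K)⁻¹ (key t ht)
  rw [h1, inv_smul_smul₀ h3] at h4
  exact h4

end

end Pool.Agent.W346.FF
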